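import Mathlib

/-! An independent hitting set lemma, proved by a potential function. -/

namespace Pool.Agent.H235Z

open Finset

/-- number of related pairs between `S` and `A` -/
def ecount {U : Type*} (r : U → U → Prop) [DecidableRel r] (S A : Finset U) : ℕ :=
  ∑ s ∈ S, (A.filter (r s)).card

theorem ecount_mono {U : Type*} (r : U → U → Prop) [DecidableRel r] {S S' A A' : Finset U}
    (h1 : S ⊆ S') (h2 : A ⊆ A') : ecount r S A ≤ ecount r S' A' := by
  unfold ecount
  calc ∑ s ∈ S, (A.filter (r s)).card ≤ ∑ s ∈ S, (A'.filter (r s)).card :=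
        sum_le_sum fun s _ => card_le_card (filter_subset_filter _ h2)
    _ ≤ ∑ s ∈ S', (A'.filter (r s)).card := sum_le_sum_of_subset h1

theorem ecount_erase {U : Type*} [DecidableEq U] (r : U → U → Prop) [DecidableRel r]
    (S A : Finset U) (u : U) (hu : u ∈ A) :
    ecount r S (A.erase u) + (S.filter (fun s => r s u)).card = ecount r S A := by
  unfold ecount
  rw [card_filter, ← sum_add_distrib]
  refine sum_congr rfl fun s _ => ?_
  by_cases h : r s u
  · simp only [h, if_true]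
    rw [filter_erase, card_erase_add_one]
    exact mem_filter.2 ⟨hu, h⟩
  · simp only [h, if_false, add_zero]
    rw [filter_erase, erase_eq_of_notMem]
    intro hm
    exact h (mem_filter.1 hm).2

theorem exp_le_one_add_two_mul {x : ℝ} (h0 : 0 ≤ x) (h1 : x ≤ 1 / 2) : Real.exp x ≤ 1 + 2 * x := by
  have h2 : Real.exp (-x) ≥ 1 - x := by
    have := Real.add_one_le_exp (-x); linarith
  have h3 : Real.exp x * Real.exp (-x) = 1 := by rw [← Real.exp_add]; simp
  have h4 : 0 < Real.exp x := Real.exp_pos x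
  have h5 : Real.exp x * (1 - x) ≤ 1 := by nlinarith
  by_contra hc
  push Not at hc
  nlinarith

/-- the potential of one set -/
noncomputable def pot {U : Type*} [DecidableEq U] (r : U → U → Prop) [DecidableRel r] (p : ℝ)
    (F A : Finset U) : ℝ :=
  Real.exp (-p * ((F ∩ A).card : ℝ) + 2 * p ^ 2 * (ecount r (F ∩ A) A : ℝ))

theorem pot_pos {U : Type*} [DecidableEq U] (r : U → U → Prop) [DecidableRel r] (p : ℝ)
    (F A : Finset U) : 0 < pot r p F A := Real.exp_pos _

theorem pot_step_mem {U : Type*} [DecidableEq U] (r : U → U → Prop) [DecidableRel r] {p : ℝ}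
    (F A : Finset U) (u : U) (hu : u ∈ A) (hF : u ∈ F) :
    (1 - p) * pot r p F (A.erase u) ≤ pot r p F A := by
  unfold pot
  have h1 : F ∩ A.erase u = (F ∩ A).erase u := by
    ext x; simp only [mem_inter, mem_erase]; tauto
  have h2 : ((F ∩ A.erase u).card : ℝ) + 1 = (F ∩ A).card := by
    rw [h1]; exact_mod_cast card_erase_add_one (mem_inter.2 ⟨hF, hu⟩)
  have h3 : (ecount r (F ∩ A.erase u) (A.erase u) : ℝ) ≤ ecount r (F ∩ A) A := by
    exact_mod_cast ecount_mono r (inter_subset_inter_left (erase_subset _ _)) (erase_subset _ _)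
  have h4 : 1 - p ≤ Real.exp (-p) := by
    have := Real.add_one_le_exp (-p); linarith
  calc (1 - p) * Real.exp (-p * ((F ∩ A.erase u).card : ℝ)
          + 2 * p ^ 2 * (ecount r (F ∩ A.erase u) (A.erase u) : ℝ))
      ≤ Real.exp (-p) * Real.exp (-p * ((F ∩ A.erase u).card : ℝ)
          + 2 * p ^ 2 * (ecount r (F ∩ A.erase u) (A.erase u) : ℝ)) :=
        mul_le_mul_of_nonneg_right h4 (Real.exp_pos _).le
    _ ≤ _ := by
        rw [← Real.exp_add]
        apply Real.exp_le_exp.2
        rw [← h2]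
        have : 2 * p ^ 2 * (ecount r (F ∩ A.erase u) (A.erase u) : ℝ)
            ≤ 2 * p ^ 2 * (ecount r (F ∩ A) A : ℝ) :=
          mul_le_mul_of_nonneg_left h3 (by positivity)
        linarith

theorem pot_step_notMem {U : Type*} [DecidableEq U] (r : U → U → Prop) [DecidableRel r] {p : ℝ}
    (hp0 : 0 ≤ p) (hp1 : p ≤ 1)
    (F A : Finset U) (u : U) (hu : u ∈ A) (hF : u ∉ F)
    (hk : p * ((A.filter (fun s => r s u)).card : ℝ) ≤ 1 / 2) :
    (1 - p) * pot r p F (A.erase u)
      + p * pot r p F ((A.erase u).filter (fun s => ¬ r s u)) ≤ pot r p F A := by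
  unfold pot
  set A1 := (A.erase u).filter (fun s => ¬ r s u) with hA1
  have h1 : F ∩ A.erase u = F ∩ A := by
    ext x; simp only [mem_inter, mem_erase]
    constructor
    · tauto
    · rintro ⟨h, h'⟩; exact ⟨h, fun e => hF (e ▸ h), h'⟩
  set k : ℕ := ((F ∩ A).filter (fun s => r s u)).card with hk'
  have hkk : (k : ℝ) ≤ (A.filter (fun s => r s u)).card := by
    exact_mod_cast card_le_card (filter_subset_filter _ inter_subset_right)
  have hpk : p * k ≤ 1 / 2 := le_trans (mul_le_mul_of_nonneg_left hkk hp0) hk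
  have h2 : (ecount r (F ∩ A) (A.erase u) : ℝ) + k = ecount r (F ∩ A) A := by
    exact_mod_cast ecount_erase r (F ∩ A) A u hu
  have h3 : F ∩ A1 = (F ∩ A).filter (fun s => ¬ r s u) := by
    rw [← h1, hA1]; ext x; simp only [mem_inter, mem_filter]; tauto
  have h4 : ((F ∩ A1).card : ℝ) + k = (F ∩ A).card := by
    rw [h3, hk', add_comm]
    exact_mod_cast card_filter_add_card_filter_not (s := F ∩ A) (fun s => r s u)
  have h5 : (ecount r (F ∩ A1) A1 : ℝ) ≤ ecount r (F ∩ A) (A.erase u) := by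
    refine mod_cast ecount_mono r ?_ (filter_subset _ _)
    rw [h3]; exact filter_subset _ _
  rw [h1]
  set c : ℝ := ((F ∩ A).card : ℝ)
  set e0 : ℝ := (ecount r (F ∩ A) (A.erase u) : ℝ)
  have h6 : Real.exp (-p * ((F ∩ A1).card : ℝ) + 2 * p ^ 2 * (ecount r (F ∩ A1) A1 : ℝ))
      ≤ Real.exp (-p * c + 2 * p ^ 2 * e0) * Real.exp (p * k) := by
    rw [← Real.exp_add]
    apply Real.exp_le_exp.2
    have : 2 * p ^ 2 * (ecount r (F ∩ A1) A1 : ℝ) ≤ 2 * p ^ 2 * e0 :=
      mul_le_mul_of_nonneg_left h5 (by positivity)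
    rw [← h4]; linarith
  have h7 : Real.exp (p * k) ≤ 1 + 2 * (p * k) :=
    exp_le_one_add_two_mul (by positivity) hpk
  have h8 : 1 + 2 * p ^ 2 * k ≤ Real.exp (2 * p ^ 2 * k) := by
    have := Real.add_one_le_exp (2 * p ^ 2 * k); linarith
  have h9 : Real.exp (-p * c + 2 * p ^ 2 * (ecount r (F ∩ A) A : ℝ))
      = Real.exp (-p * c + 2 * p ^ 2 * e0) * Real.exp (2 * p ^ 2 * k) := by
    rw [← Real.exp_add, ← h2]; congr 1; ring
  rw [h9]
  have hE := Real.exp_pos (-p * c + 2 * p ^ 2 * e0)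
  set E := Real.exp (-p * c + 2 * p ^ 2 * e0)
  have h10 : p * Real.exp (-p * ((F ∩ A1).card : ℝ) + 2 * p ^ 2 * (ecount r (F ∩ A1) A1 : ℝ))
      ≤ p * (E * (1 + 2 * (p * k))) :=
    mul_le_mul_of_nonneg_left (le_trans h6 (mul_le_mul_of_nonneg_left h7 hE.le)) hp0
  have h11 : E * (1 + 2 * p ^ 2 * k) ≤ E * Real.exp (2 * p ^ 2 * k) :=
    mul_le_mul_of_nonneg_left h8 hE.le
  nlinarith

theorem hit_aux {U J : Type*} [DecidableEq U] [DecidableEq J] (r : U → U → Prop) [DecidableRel r]
    (hsymm : ∀ a b, r a b → r b a) {p : ℝ} (hp0 : 0 ≤ p) (hp1 : p ≤ 1) (F : J → Finset U)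
    (A : Finset U) :
    (∀ u ∈ A, p * ((A.filter (fun s => r s u)).card : ℝ) ≤ 1 / 2) →
    ∀ I : Finset J, ∑ j ∈ I, pot r p (F j) A < 1 →
      ∃ K ⊆ A, (∀ x ∈ K, ∀ y ∈ K, r x y → x = y) ∧ ∀ j ∈ I, ∃ x ∈ K, x ∈ F j := by
  induction A using Finset.strongInduction with
  | H A ih =>
    intro hdeg I hI
    rcases A.eq_empty_or_nonempty with rfl | ⟨u, hu⟩
    · refine ⟨∅, Subset.refl _, by simp, fun j hj => ?_⟩
      exfalso
      have h1 : pot r p (F j) ∅ ≤ ∑ j ∈ I, pot r p (F j) ∅ :=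
        single_le_sum (f := fun j => pot r p (F j) ∅) (fun j _ => (pot_pos _ _ _ _).le) hj
      have h2 : pot r p (F j) ∅ = 1 := by simp [pot, ecount]
      linarith
    · set A0 := A.erase u with hA0
      set A1 := A0.filter (fun s => ¬ r s u) with hA1
      set I1 := I.filter (fun j => u ∉ F j) with hI1
      have hA0s : A0 ⊂ A := erase_ssubset hu
      have hA1s : A1 ⊂ A := lt_of_le_of_lt (filter_subset _ _) hA0s
      have hdeg' : ∀ B ⊆ A, ∀ v ∈ B, p * ((B.filter (fun s => r s v)).card : ℝ) ≤ 1 / 2 := by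
        intro B hB v hv
        refine le_trans (mul_le_mul_of_nonneg_left ?_ hp0) (hdeg v (hB hv))
        exact_mod_cast card_le_card (filter_subset_filter _ hB)
      have key : (1 - p) * ∑ j ∈ I, pot r p (F j) A0 + p * ∑ j ∈ I1, pot r p (F j) A1
          ≤ ∑ j ∈ I, pot r p (F j) A := by
        rw [hI1, sum_filter, mul_sum, mul_sum, ← sum_add_distrib]
        refine sum_le_sum fun j _ => ?_
        by_cases hj : u ∈ F j
        · simp only [hj, not_true, if_false, mul_zero, add_zero]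
          exact pot_step_mem r _ _ _ hu hj
        · simp only [hj, not_false_iff, if_true]
          exact pot_step_notMem r hp0 hp1 _ _ _ hu hj (hdeg u hu)
      by_cases h0 : ∑ j ∈ I, pot r p (F j) A0 < 1
      · obtain ⟨K, hK, h1, h2⟩ := ih A0 hA0s (hdeg' A0 hA0s.subset) I h0
        exact ⟨K, hK.trans hA0s.subset, h1, h2⟩
      · have h1' : ∑ j ∈ I1, pot r p (F j) A1 < 1 := by
          by_contra hc
          push Not at hc h0
          have e1 : (1 - p) * 1 ≤ (1 - p) * ∑ j ∈ I, pot r p (F j) A0 :=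
            mul_le_mul_of_nonneg_left h0 (by linarith)
          have e2 : p * 1 ≤ p * ∑ j ∈ I1, pot r p (F j) A1 := mul_le_mul_of_nonneg_left hc hp0
          linarith
        obtain ⟨K, hK, h1, h2⟩ := ih A1 hA1s (hdeg' A1 hA1s.subset) I1 h1'
        refine ⟨insert u K, insert_subset hu (hK.trans hA1s.subset), ?_, ?_⟩
        · intro x hx y hy hxy
          rcases mem_insert.1 hx with rfl | hx' <;> rcases mem_insert.1 hy with rfl | hy'
          · rfl
          · exact absurd (hsymm _ _ hxy) (mem_filter.1 (hK hy')).2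
          · exact absurd hxy (mem_filter.1 (hK hx')).2
          · exact h1 x hx' y hy' hxy
        · intro j hj
          by_cases hj' : u ∈ F j
          · exact ⟨u, mem_insert_self _ _, hj'⟩
          · obtain ⟨x, hx, hx'⟩ := h2 j (mem_filter.2 ⟨hj, hj'⟩)
            exact ⟨x, mem_insert_of_mem hx, hx'⟩

/-- Independent hitting sets: if `r` is symmetric of degree at most `D` on `A` and
`∑ exp (-|F j ∩ A| / (8 D)) < 1`, there is an `r`-independent subset of `A` meeting every `F j`. -/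
theorem hit {U J : Type*} [DecidableEq U] [DecidableEq J] (r : U → U → Prop) [DecidableRel r]
    (hsymm : ∀ a b, r a b → r b a) (D : ℕ) (hD : 0 < D) (F : J → Finset U) (A : Finset U)
    (hdeg : ∀ u ∈ A, (A.filter (r u)).card ≤ D) (I : Finset J)
    (hI : ∑ j ∈ I, Real.exp (-((F j ∩ A).card : ℝ) / (8 * D)) < 1) :
    ∃ K ⊆ A, (∀ x ∈ K, ∀ y ∈ K, r x y → x = y) ∧ ∀ j ∈ I, ∃ x ∈ K, x ∈ F j := by
  have hD' : (1 : ℝ) ≤ D := by exact_mod_cast hD
  have hp0 : (0 : ℝ) ≤ 1 / (4 * D) := by positivity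
  have hp1 : (1 : ℝ) / (4 * D) ≤ 1 := by
    rw [div_le_one (by positivity)]; linarith
  refine hit_aux r hsymm hp0 hp1 F A ?_ I (lt_of_le_of_lt (sum_le_sum fun j _ => ?_) hI)
  · intro u hu
    have h1 : A.filter (fun s => r s u) = A.filter (r u) :=
      filter_congr fun s _ => ⟨hsymm _ _, hsymm _ _⟩
    have h2 : ((A.filter (r u)).card : ℝ) ≤ D := by exact_mod_cast hdeg u hu
    rw [h1]
    calc 1 / (4 * (D : ℝ)) * ((A.filter (r u)).card : ℝ) ≤ 1 / (4 * (D : ℝ)) * D :=
          mul_le_mul_of_nonneg_left h2 hp0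
      _ = 1 / 4 := by field_simp
      _ ≤ 1 / 2 := by norm_num
  · unfold pot
    apply Real.exp_le_exp.2
    have h1 : ecount r (F j ∩ A) A ≤ (F j ∩ A).card * D := by
      unfold ecount
      have := sum_le_card_nsmul (F j ∩ A) (fun s => (A.filter (r s)).card) D
        (fun s hs => hdeg s (mem_inter.1 hs).2)
      simpa using this
    have h2 : (ecount r (F j ∩ A) A : ℝ) ≤ (F j ∩ A).card * D := by exact_mod_cast h1
    have h3 : 2 * (1 / (4 * (D : ℝ))) ^ 2 * (ecount r (F j ∩ A) A : ℝ)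
        ≤ 2 * (1 / (4 * (D : ℝ))) ^ 2 * ((F j ∩ A).card * D) :=
      mul_le_mul_of_nonneg_left h2 (by positivity)
    have h4 : -(1 / (4 * (D : ℝ))) * ((F j ∩ A).card : ℝ)
        + 2 * (1 / (4 * (D : ℝ))) ^ 2 * ((F j ∩ A).card * D)
        = -((F j ∩ A).card : ℝ) / (8 * D) := by
      field_simp; ring
    linarith

end Pool.Agent.H235Z
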