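import Mathlib
import Pool.Agent.H235Z.Hit

/-! Flipping disjoint subcubes of the permutation `x 0 + ⋯ + x d = 0` over an elementary abelian
2-group. -/

namespace Pool.Agent.H235Z

open Finset

section
variable {ι G : Type} [Fintype ι] [DecidableEq ι] [AddCommGroup G] [Fintype G] [DecidableEq G]

/-- `x` lies in the subcube spanned by `y` in the direction `∑ y`. -/
def InQ (y x : ι → G) : Prop := ∀ i, x i = y i ∨ x i = y i + ∑ j, y j

instance (y x : ι → G) : Decidable (InQ y x) := by unfold InQ; infer_instance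

/-- the subcubes of `y` and `y'` share a cell of sum zero -/
def Conf (y y' : ι → G) : Prop := ∃ c : ι → G, ∑ j, c j = 0 ∧ InQ y c ∧ InQ y' c

instance : DecidableRel (Conf (ι := ι) (G := G)) := by
  intro y y'; unfold Conf; infer_instance

omit [DecidableEq ι] [Fintype G] [DecidableEq G] in
theorem Conf.symm {y y' : ι → G} (h : Conf y y') : Conf y' y := by
  obtain ⟨c, h1, h2, h3⟩ := h
  exact ⟨c, h1, h3, h2⟩

omit [DecidableEq ι] [Fintype G] [DecidableEq G] in
theorem InQ.sum (h2 : ∀ x : G, x + x = 0) {y x : ι → G} (h : InQ y x) :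
    ∑ j, x j = 0 ∨ ∑ j, x j = ∑ j, y j := by
  set s := ∑ j, y j with hs
  have h1 : ∑ j, (x j - y j) = 0 ∨ ∑ j, (x j - y j) = s := by
    refine sum_induction (fun j => x j - y j) (fun z => z = 0 ∨ z = s) ?_ (Or.inl rfl) ?_
    · rintro a b (rfl | rfl) (rfl | rfl)
      · left; simp
      · right; simp
      · right; simp
      · left; exact h2 _
    · intro j _
      rcases h j with e | e
      · left; rw [e]; simp
      · right; rw [e]; simp [hs]
  rw [sum_sub_distrib, ← hs] at h1
  rcases h1 with e | e
  · right; exact sub_eq_zero.1 e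
  · left; rw [sub_eq_iff_eq_add] at e; rw [e]; exact h2 _

theorem conf_card (h2 : ∀ x : G, x + x = 0) (y : ι → G) (A : Finset (ι → G)) :
    (A.filter (Conf y)).card ≤ 4 ^ Fintype.card ι * Fintype.card G := by
  let f : (ι → Bool) × (ι → Bool) × G → (ι → G) := fun t i =>
    y i + (if t.1 i then ∑ j, y j else 0) + (if t.2.1 i then t.2.2 else 0)
  have hsub : A.filter (Conf y) ⊆ univ.image f := by
    intro y' hy'
    obtain ⟨c, -, h3, h4⟩ := (mem_filter.1 hy').2
    refine mem_image.2 ⟨(fun i => decide (c i ≠ y i), fun i => decide (c i ≠ y' i), ∑ j, y' j),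
      mem_univ _, ?_⟩
    funext i
    have e1 : y i + (if decide (c i ≠ y i) = true then ∑ j, y j else 0) = c i := by
      by_cases h : c i = y i
      · simp [h]
      · rcases h3 i with e | e
        · exact absurd e h
        · simp only [ne_eq, h, not_false_eq_true, decide_true, if_true]; exact e.symm
    show y i + (if decide (c i ≠ y i) = true then ∑ j, y j else 0)
      + (if decide (c i ≠ y' i) = true then ∑ j, y' j else 0) = y' i
    rw [e1]
    by_cases h : c i = y' i
    · simp [h]
    · rcases h4 i with e | e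
      · exact absurd e h
      · simp only [ne_eq, h, not_false_eq_true, decide_true, if_true]
        rw [e, add_assoc, h2, add_zero]
  calc (A.filter (Conf y)).card ≤ (univ.image f).card := card_le_card hsub
    _ ≤ (univ : Finset ((ι → Bool) × (ι → Bool) × G)).card := card_image_le
    _ = 4 ^ Fintype.card ι * Fintype.card G := by
      simp only [card_univ, Fintype.card_prod, Fintype.card_fun, Fintype.card_bool]
      rw [← mul_assoc, ← mul_pow]
      norm_num

omit [Fintype G] [DecidableEq G] in
theorem sum_update (h2 : ∀ x : G, x + x = 0) (α : ι → G) (i : ι) (x : G) :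
    ∑ j, Function.update α i x j = (∑ j, α j + α i) + x := by
  rw [sum_update_of_mem (mem_univ i), ← add_sum_erase univ α (mem_univ i), sdiff_singleton_eq_erase]
  have := h2 (α i)
  rw [add_right_comm (α i), this, zero_add, add_comm]

/-- the flipped array -/
def flipArr (K : Finset (ι → G)) (x : ι → G) : Bool :=
  if ∑ j, x j = 0 then decide (¬ ∃ y ∈ K, InQ y x) else decide (∃ y ∈ K, InQ y x)

omit [Fintype G] [DecidableEq G] in
theorem inQ_shift (h2 : ∀ x : G, x + x = 0) {y α : ι → G} {i : ι} {x : G}
    (h : InQ y (Function.update α i x)) : InQ y (Function.update α i (x + ∑ j, y j)) := by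
  intro k
  by_cases hk : k = i
  · subst hk
    have := h k
    simp only [Function.update_self] at this ⊢
    rcases this with e | e
    · right; rw [e]
    · left; rw [e, add_assoc, h2, add_zero]
  · have := h k
    simp only [Function.update_of_ne hk] at this ⊢
    exact this

omit [Fintype G] in
theorem flip_line (h2 : ∀ x : G, x + x = 0) (K : Finset (ι → G))
    (hK0 : ∀ y ∈ K, ∑ j, y j ≠ 0) (hK : ∀ x ∈ K, ∀ y ∈ K, Conf x y → x = y) (i : ι) (α : ι → G) :
    ∃! x : G, flipArr K (Function.update α i x) = true := by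
  set x0 := ∑ j, α j + α i with hx0
  have hs : ∀ x, ∑ j, Function.update α i x j = x0 + x := fun x => sum_update h2 α i x
  have hs0 : ∑ j, Function.update α i x0 j = 0 := by rw [hs, h2]
  have hne : ∀ x, x ≠ x0 → ∑ j, Function.update α i x j ≠ 0 := by
    intro x hx h
    apply hx
    rw [hs] at h
    calc x = (x0 + x0) + x := by rw [h2, zero_add]
      _ = x0 := by rw [add_assoc, h, add_zero]
  have hother : ∀ x, x ≠ x0 → flipArr K (Function.update α i x) = true →
      ∃ y ∈ K, InQ y (Function.update α i x0) ∧ x = x0 + ∑ j, y j := by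
    intro x hx h
    unfold flipArr at h
    rw [if_neg (hne x hx)] at h
    obtain ⟨y, hy, hq⟩ := of_decide_eq_true h
    have e : x0 + x = ∑ j, y j := by
      rcases hq.sum h2 with e | e
      · exact absurd e (hne x hx)
      · rw [← hs]; exact e
    have e' : x + ∑ j, y j = x0 := by
      rw [← e, add_comm x0, ← add_assoc, h2, zero_add]
    refine ⟨y, hy, e' ▸ inQ_shift h2 hq, ?_⟩
    rw [← e, ← add_assoc, h2, zero_add]
  by_cases hc : ∃ y ∈ K, InQ y (Function.update α i x0)
  · obtain ⟨y, hy, hq⟩ := hc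
    have hx1 : x0 + ∑ j, y j ≠ x0 := by
      intro h
      exact hK0 y hy (by simpa using h)
    refine ⟨x0 + ∑ j, y j, ?_, ?_⟩
    · show flipArr K _ = true
      unfold flipArr
      rw [if_neg (hne _ hx1)]
      exact decide_eq_true ⟨y, hy, inQ_shift h2 hq⟩
    · intro x hx
      have hxx : x ≠ x0 := by
        rintro rfl
        unfold flipArr at hx
        rw [if_pos hs0] at hx
        exact of_decide_eq_true hx ⟨y, hy, hq⟩
      obtain ⟨y', hy', hq', e⟩ := hother x hxx hx
      have : y = y' := hK y hy y' hy' ⟨_, hs0, hq, hq'⟩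
      rw [e, this]
  · refine ⟨x0, ?_, ?_⟩
    · show flipArr K _ = true
      unfold flipArr
      rw [if_pos hs0]
      exact decide_eq_true hc
    · intro x hx
      by_contra hxx
      obtain ⟨y', hy', hq', -⟩ := hother x hxx hx
      exact hc ⟨y', hy', hq'⟩

theorem half_card (h2 : ∀ x : G, x + x = 0) (T : ι → Finset G) (i : ι) (hi : 2 ≤ (T i).card) :
    ∏ j, (T j).card ≤
      2 * (Fintype.piFinset T ∩ univ.filter (fun y : ι → G => ∑ j, y j ≠ 0)).card := by
  obtain ⟨a, ha, b, hb, hab⟩ := one_lt_card.1 (show 1 < (T i).card from hi)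
  have e1 : Fintype.piFinset T ∩ univ.filter (fun y : ι → G => ∑ j, y j ≠ 0)
      = (Fintype.piFinset T).filter (fun y => ¬ ∑ j, y j = 0) := by
    ext y; simp
  rw [e1, ← Fintype.card_piFinset,
    ← card_filter_add_card_filter_not (s := Fintype.piFinset T) (fun y => ∑ j, y j = 0), two_mul]
  refine Nat.add_le_add_right ?_ _
  refine card_le_card_of_injOn (fun y => Function.update y i (if y i = a then b else a)) ?_ ?_
  · intro y hy
    simp only [coe_filter, Set.mem_ofPred_eq, Fintype.mem_piFinset] at hy ⊢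
    refine ⟨fun j => ?_, ?_⟩
    · by_cases hj : j = i
      · subst hj
        simp only [Function.update_self]
        split_ifs <;> assumption
      · rw [Function.update_of_ne hj]; exact hy.1 j
    · rw [sum_update h2, hy.2, zero_add]
      intro h
      have h' : (if y i = a then b else a) = y i := by
        calc (if y i = a then b else a) = (y i + y i) + (if y i = a then b else a) := by
              rw [h2, zero_add]
          _ = y i := by rw [add_assoc, h, add_zero]
      split_ifs at h' with h3
      · exact hab (h3.symm.trans h'.symm)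
      · exact h3 h'.symm
  · intro y hy y' hy' h
    simp only [coe_filter, Set.mem_ofPred_eq, Fintype.mem_piFinset] at hy hy'
    have hoff : ∀ j, j ≠ i → y j = y' j := by
      intro j hj
      have := congrFun h j
      simpa [Function.update_of_ne hj] using this
    have e2 : ∑ j ∈ univ.erase i, y j = ∑ j ∈ univ.erase i, y' j :=
      sum_congr rfl fun j hj => hoff j (mem_erase.1 hj).1
    have e3 := add_sum_erase univ y (mem_univ i)
    have e4 := add_sum_erase univ y' (mem_univ i)
    rw [hy.2] at e3
    rw [hy'.2, ← e2] at e4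
    have e5 : y i = y' i := add_right_cancel (e3.trans e4.symm)
    funext j
    by_cases hj : j = i
    · rw [hj]; exact e5
    · exact hoff j hj

/-- Main construction: a permutation array meeting every box of a small family of large boxes. -/
theorem core (h2 : ∀ x : G, x + x = 0) (B : Finset (ι → Finset G))
    (hB : ∀ T ∈ B, ∃ i, 2 ≤ (T i).card)
    (hsum : ∑ T ∈ B, Real.exp (-((∏ j, (T j).card : ℕ) : ℝ)
      / (16 * (4 ^ Fintype.card ι * Fintype.card G : ℕ))) < 1) :
    ∃ A : (ι → G) → Bool, (∀ i α, ∃! x : G, A (Function.update α i x) = true) ∧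
      ∀ T ∈ B, ∃ α : ι → G, (∀ i, α i ∈ T i) ∧ A α = true := by
  have hD : 0 < 4 ^ Fintype.card ι * Fintype.card G :=
    Nat.mul_pos (by positivity) Fintype.card_pos
  obtain ⟨K, hK1, hK2, hK3⟩ := hit (Conf (ι := ι) (G := G)) (fun _ _ h => h.symm) _ hD
    (fun T : ι → Finset G => Fintype.piFinset T) (univ.filter (fun y : ι → G => ∑ j, y j ≠ 0))
    (fun u _ => conf_card h2 u _) B (lt_of_le_of_lt (sum_le_sum fun T hT => by
      obtain ⟨i, hi⟩ := hB T hT
      have h3 := half_card h2 T i hi
      apply Real.exp_le_exp.2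
      have hD' : (0 : ℝ) < (4 ^ Fintype.card ι * Fintype.card G : ℕ) := by exact_mod_cast hD
      have h4 : ((∏ j, (T j).card : ℕ) : ℝ) ≤ 2 * ((Fintype.piFinset T ∩
        univ.filter (fun y : ι → G => ∑ j, y j ≠ 0)).card : ℝ) := by exact_mod_cast h3
      rw [div_le_div_iff₀ (by positivity) (by positivity)]
      nlinarith) hsum)
  have hK0 : ∀ y ∈ K, ∑ j, y j ≠ 0 := fun y hy => (mem_filter.1 (hK1 hy)).2
  refine ⟨flipArr K, flip_line h2 K hK0 hK2, fun T hT => ?_⟩
  obtain ⟨y, hy, hyT⟩ := hK3 T hT
  refine ⟨y, Fintype.mem_piFinset.1 hyT, ?_⟩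
  unfold flipArr
  rw [if_neg (hK0 y hy)]
  exact decide_eq_true ⟨y, hy, fun i => Or.inl rfl⟩

end

/-- The construction on `Fin (2 ^ k)`. -/
theorem core_fin (d k : ℕ) (B : Finset (Fin (d + 1) → Finset (Fin (2 ^ k))))
    (hB : ∀ T ∈ B, ∃ i, 2 ≤ (T i).card)
    (hsum : ∑ T ∈ B, Real.exp (-((∏ j, (T j).card : ℕ) : ℝ)
      / (16 * (4 ^ (d + 1) * 2 ^ k : ℕ))) < 1) :
    ∃ A : (Fin (d + 1) → Fin (2 ^ k)) → Bool,
      (∀ i α, ∃! x : Fin (2 ^ k), A (Function.update α i x) = true) ∧
      ∀ T ∈ B, ∃ α : Fin (d + 1) → Fin (2 ^ k), (∀ i, α i ∈ T i) ∧ A α = true := by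
  have hc : Fintype.card (Fin (2 ^ k)) = Fintype.card (Fin k → ZMod 2) := by simp
  let e : Fin (2 ^ k) ≃ (Fin k → ZMod 2) := Fintype.equivOfCardEq hc
  have h2 : ∀ x : Fin (2 ^ k), (e.addCommGroup.add x x) = e.addCommGroup.zero := by
    intro x
    show e.symm (e x + e x) = e.symm 0
    congr 1
    funext i
    exact CharTwo.add_self_eq_zero _
  refine @core (Fin (d + 1)) (Fin (2 ^ k)) _ _ e.addCommGroup _ _ h2 B hB ?_
  simpa using hsum

end Pool.Agent.H235Z
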