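import Mathlib

/-! High-dimensional permutations and empty boxes. -/

namespace Pool.Agent.H235Z

/-- `A : [n]^(d+1) → {0,1}` (with `true` for `1`) is a `d`-dimensional permutation of order `n`:
every line contains exactly one `1`. -/
def IsPerm {d n : ℕ} (A : (Fin (d + 1) → Fin n) → Bool) : Prop :=
  ∀ (i : Fin (d + 1)) (α : Fin (d + 1) → Fin n), ∃! x : Fin n, A (Function.update α i x) = true

/-- the box `T 0 × ⋯ × T d` is empty in `A`. -/
def IsEmptyBox {d n : ℕ} (A : (Fin (d + 1) → Fin n) → Bool)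
    (T : Fin (d + 1) → Finset (Fin n)) : Prop :=
  ∀ α : Fin (d + 1) → Fin n, (∀ i, α i ∈ T i) → A α = false

end Pool.Agent.H235Z
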