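import Mathlib
import Pool.Agent.H235Z.Flip
import Pool.Agent.H235Z.PermDefs

/-! Permutations with no large empty box, and with no large empty cube. -/

namespace Pool.Agent.H235Z

open Finset

theorem exists_two_le {ι α : Type*} [Fintype ι] (T : ι → Finset α) (h : 1 < ∏ i, (T i).card) :
    ∃ i, 2 ≤ (T i).card := by
  by_contra hc
  push Not at hc
  have : ∏ i, (T i).card ≤ 1 := prod_le_one' fun i _ => by have := hc i; omega
  omega

theorem box_bound (d k : ℕ) : ∃ A : (Fin (d + 1) → Fin (2 ^ k)) → Bool, IsPerm A ∧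
    ∀ T : Fin (d + 1) → Finset (Fin (2 ^ k)), IsEmptyBox A T →
      ∏ i, (T i).card ≤ 16 * (d + 1) * 4 ^ (d + 1) * (2 ^ k) ^ 2 := by
  set n := 2 ^ k with hn
  have hn0 : 0 < n := by positivity
  set C := 16 * (d + 1) * 4 ^ (d + 1) * n ^ 2 with hC
  have hC1 : 1 ≤ C := Nat.one_le_iff_ne_zero.2 (by positivity)
  obtain ⟨A, hA, hB⟩ := core_fin d k (univ.filter fun T => C < ∏ i, (T i).card)
    (fun T hT => exists_two_le T (lt_of_le_of_lt hC1 (mem_filter.1 hT).2)) (by
      have h1 : ∀ T ∈ (univ.filter fun T : Fin (d + 1) → Finset (Fin n) => C < ∏ i, (T i).card),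
          Real.exp (-((∏ j, (T j).card : ℕ) : ℝ) / (16 * (4 ^ (d + 1) * n : ℕ)))
            ≤ Real.exp (-((d + 1) * n : ℕ)) := by
        intro T hT
        apply Real.exp_le_exp.2
        have h2 : (C : ℝ) ≤ ((∏ j, (T j).card : ℕ) : ℝ) := by
          exact_mod_cast (mem_filter.1 hT).2.le
        rw [div_le_iff₀ (by positivity)]
        have h3 : (C : ℝ) = ((d + 1) * n : ℕ) * (16 * (4 ^ (d + 1) * n : ℕ)) := by
          rw [hC]; push_cast; ring
        linarith
      refine lt_of_le_of_lt (sum_le_card_nsmul _ _ _ h1) ?_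
      have h4 : (univ.filter fun T : Fin (d + 1) → Finset (Fin n) => C < ∏ i, (T i).card).card
          ≤ 2 ^ ((d + 1) * n) := by
        refine le_trans (card_filter_le _ _) ?_
        simp only [card_univ, Fintype.card_fun, Fintype.card_finset, Fintype.card_fin]
        rw [← pow_mul, mul_comm]
      have h5 : ((2 : ℝ) ^ ((d + 1) * n)) < Real.exp ((d + 1) * n : ℕ) := by
        rw [← Real.exp_one_pow]
        refine pow_lt_pow_left₀ ?_ (by norm_num) (by positivity)
        have := Real.add_one_lt_exp (x := 1) one_ne_zero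
        linarith
      have h6 : (((univ.filter fun T : Fin (d + 1) → Finset (Fin n) =>
          C < ∏ i, (T i).card).card : ℕ) : ℝ) ≤ (2 : ℝ) ^ ((d + 1) * n) := by exact_mod_cast h4
      rw [nsmul_eq_mul, Real.exp_neg, ← div_eq_mul_inv, div_lt_one (Real.exp_pos _)]
      exact lt_of_le_of_lt h6 h5)
  refine ⟨A, hA, fun T hT => ?_⟩
  by_contra hc
  push Not at hc
  obtain ⟨α, h1, h2⟩ := hB T (mem_filter.2 ⟨mem_univ _, hc⟩)
  rw [hT α h1] at h2
  exact Bool.false_ne_true h2

theorem cube_bound (d k : ℕ) (hd : 1 ≤ d) (hk : 1 ≤ k) :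
    ∃ A : (Fin (d + 1) → Fin (2 ^ k)) → Bool, IsPerm A ∧
    ∀ (s : ℕ) (T : Fin (d + 1) → Finset (Fin (2 ^ k))), (∀ i, (T i).card = s) → IsEmptyBox A T →
      (s : ℝ) ^ d ≤ (16 * (d + 1) * 4 ^ (d + 1)) * ((2 ^ k : ℕ) * Real.log (2 ^ k : ℕ)) := by
  set n := 2 ^ k with hn
  have hn2 : 2 ≤ n := by
    calc 2 = 2 ^ 1 := by norm_num
      _ ≤ 2 ^ k := Nat.pow_le_pow_right (by norm_num) hk
  have hn2' : (2 : ℝ) ≤ n := by exact_mod_cast hn2
  set L := Real.log (n : ℝ) with hL
  have hL0 : 1 / 2 ≤ L := by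
    have := Real.log_two_gt_d9
    have h2 : Real.log 2 ≤ L := Real.log_le_log (by norm_num) hn2'
    linarith
  set M : ℝ := (16 * (d + 1) * 4 ^ (d + 1)) * (n * L) with hM
  have hM1 : 1 ≤ M := by
    have h1 : (1 : ℝ) ≤ 16 * (d + 1) * 4 ^ (d + 1) := by
      have : (1 : ℝ) ≤ 4 ^ (d + 1) := one_le_pow₀ (by norm_num)
      have : (0 : ℝ) ≤ d := by positivity
      nlinarith
    have h2 : (1 : ℝ) ≤ n * L := by nlinarith
    nlinarith
  have hex : ∃ s : ℕ, M < (s : ℝ) ^ d := by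
    obtain ⟨s, hs⟩ := exists_nat_gt M
    refine ⟨s, lt_of_lt_of_le hs (le_self_pow₀ (by linarith) (by omega))⟩
  classical
  set s0 := Nat.find hex with hs0
  have hs0M : M < (s0 : ℝ) ^ d := Nat.find_spec hex
  have hs02 : 2 ≤ s0 := by
    by_contra hc
    have h1 : (s0 : ℝ) ≤ 1 := by exact_mod_cast (by omega : s0 ≤ 1)
    have h2 : (s0 : ℝ) ^ d ≤ 1 := pow_le_one₀ (by positivity) h1
    linarith
  have hs0p : (0 : ℝ) < s0 := by exact_mod_cast (by omega : 0 < s0)
  obtain ⟨A, hA, hB⟩ := core_fin d k (Fintype.piFinset fun _ => powersetCard s0 univ)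
    (fun T hT => ⟨0, by
      rw [(mem_powersetCard.1 (Fintype.mem_piFinset.1 hT 0)).2]; exact hs02⟩) (by
      have h1 : ∀ T ∈ (Fintype.piFinset fun _ : Fin (d + 1) =>
          powersetCard s0 (univ : Finset (Fin n))),
          Real.exp (-((∏ j, (T j).card : ℕ) : ℝ) / (16 * (4 ^ (d + 1) * n : ℕ)))
            ≤ Real.exp (-((s0 : ℝ) ^ (d + 1) / (16 * (4 ^ (d + 1) * n)))) := by
        intro T hT
        apply Real.exp_le_exp.2
        have h2 : ∏ j, (T j).card = s0 ^ (d + 1) := by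
          rw [prod_congr rfl fun j _ => (mem_powersetCard.1 (Fintype.mem_piFinset.1 hT j)).2]
          simp
        rw [h2]; push_cast; rw [neg_div]
      refine lt_of_le_of_lt (sum_le_card_nsmul _ _ _ h1) ?_
      have h4 : (Fintype.piFinset fun _ : Fin (d + 1) =>
          powersetCard s0 (univ : Finset (Fin n))).card ≤ n ^ (s0 * (d + 1)) := by
        rw [Fintype.card_piFinset]
        simp only [card_powersetCard, card_univ, Fintype.card_fin, prod_const]
        rw [pow_mul]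
        exact Nat.pow_le_pow_left (Nat.choose_le_pow _ _) _
      have h6 : (((Fintype.piFinset fun _ : Fin (d + 1) =>
          powersetCard s0 (univ : Finset (Fin n))).card : ℕ) : ℝ) ≤ (n : ℝ) ^ (s0 * (d + 1)) := by
        exact_mod_cast h4
      rw [nsmul_eq_mul, Real.exp_neg, ← div_eq_mul_inv, div_lt_one (Real.exp_pos _)]
      refine lt_of_le_of_lt h6 ?_
      have h7 : (n : ℝ) ^ (s0 * (d + 1)) = Real.exp ((s0 * (d + 1) : ℕ) * L) := by
        rw [Real.exp_nat_mul, hL, Real.exp_log (by linarith)]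
      rw [h7]
      apply Real.exp_lt_exp.2
      rw [lt_div_iff₀ (by positivity), pow_succ (s0 : ℝ) d]
      have h8 : ((s0 * (d + 1) : ℕ) : ℝ) * L * (16 * (4 ^ (d + 1) * n)) = M * s0 := by
        rw [hM]; push_cast; ring
      rw [h8]
      exact mul_lt_mul_of_pos_right hs0M hs0p)
  refine ⟨A, hA, fun s T hT hE => ?_⟩
  by_contra hc
  push Not at hc
  have hle : s0 ≤ s := Nat.find_min' hex hc
  have hsub : ∀ i, ∃ t ⊆ T i, t.card = s0 := fun i =>
    exists_subset_card_eq (by rw [hT i]; exact hle)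
  choose T' hT'1 hT'2 using hsub
  obtain ⟨α, h1, h2⟩ := hB T' (Fintype.mem_piFinset.2 fun i =>
    mem_powersetCard.2 ⟨subset_univ _, hT'2 i⟩)
  rw [hE α fun i => hT'1 i (h1 i)] at h2
  exact Bool.false_ne_true h2

end Pool.Agent.H235Z
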