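import Mathlib
import Pool.Agent.H235Z.PermDefs

/-! Every high-dimensional permutation has a large empty cube. -/

namespace Pool.Agent.H235Z

open Finset

/-- greedy choice of a set `X` avoiding many of the small sets `Bad j`. -/
theorem greedy {n : ℕ} (b : ℕ) (Bad : Fin n → Finset (Fin n)) (hb : ∀ j, (Bad j).card ≤ b)
    (hn : 0 < n) (hbn : 2 * b ≤ n) (t : ℕ) (ht : 2 * t ≤ n) :
    ∃ X : Finset (Fin n), X.card = t ∧
      (n : ℝ) * (1 - 2 * b / n) ^ t ≤ (univ.filter fun j => Disjoint X (Bad j)).card := by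
  have hn' : (0 : ℝ) < n := by exact_mod_cast hn
  have hq : (0 : ℝ) ≤ 1 - 2 * b / n := by
    rw [sub_nonneg, div_le_one hn']; exact_mod_cast hbn
  induction t with
  | zero => exact ⟨∅, rfl, by simp⟩
  | succ t ih =>
    obtain ⟨X, hX, hJ⟩ := ih (by omega)
    set J := univ.filter fun j => Disjoint X (Bad j) with hJdef
    have hXc : (Xᶜ).card = n - t := by rw [card_compl, hX]; simp
    have hne : (Xᶜ).Nonempty := by rw [← card_pos, hXc]; omega
    have hsum : ∑ x ∈ Xᶜ, (J.filter fun j => x ∈ Bad j).card ≤ J.card * b := by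
      have e : ∑ x ∈ Xᶜ, (J.filter fun j => x ∈ Bad j).card
          = ∑ j ∈ J, (Xᶜ.filter fun x => x ∈ Bad j).card := by
        simp only [card_filter]
        exact sum_comm
      rw [e]
      have := sum_le_card_nsmul J (fun j => (Xᶜ.filter fun x => x ∈ Bad j).card) b
        (fun j _ => le_trans (card_le_card fun x hx => (mem_filter.1 hx).2) (hb j))
      simpa using this
    have hex : ∃ x ∈ Xᶜ, ((J.filter fun j => x ∈ Bad j).card : ℝ) ≤ J.card * (2 * b / n) := by
      apply exists_le_of_sum_le hne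
      rw [sum_const, hXc, nsmul_eq_mul]
      have h1 : ((∑ x ∈ Xᶜ, (J.filter fun j => x ∈ Bad j).card : ℕ) : ℝ) ≤ J.card * b := by
        exact_mod_cast hsum
      push_cast at h1
      refine le_trans h1 ?_
      have h2 : (n : ℝ) ≤ 2 * ((n - t : ℕ) : ℝ) := by
        exact_mod_cast (by omega : n ≤ 2 * (n - t))
      have h3 : (b : ℝ) ≤ ((n - t : ℕ) : ℝ) * (2 * b / n) := by
        rw [← mul_div_assoc, le_div_iff₀ hn']
        have : (0 : ℝ) ≤ b := by positivity
        nlinarith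
      calc (J.card : ℝ) * b ≤ J.card * (((n - t : ℕ) : ℝ) * (2 * b / n)) :=
            mul_le_mul_of_nonneg_left h3 (by positivity)
        _ = _ := by ring
    obtain ⟨x, hx, hxJ⟩ := hex
    have hxX : x ∉ X := mem_compl.1 hx
    refine ⟨insert x X, by rw [card_insert_of_notMem hxX, hX], ?_⟩
    have e : (univ.filter fun j => Disjoint (insert x X) (Bad j))
        = J.filter fun j => ¬ x ∈ Bad j := by
      ext j; simp [hJdef, and_comm]
    rw [e]
    have h4 : ((J.filter fun j => x ∈ Bad j).card : ℝ) + (J.filter fun j => ¬ x ∈ Bad j).card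
        = J.card := by
      exact_mod_cast card_filter_add_card_filter_not (s := J) (fun j => x ∈ Bad j)
    have h5 : (n : ℝ) * (1 - 2 * b / n) ^ t * (1 - 2 * b / n) ≤ J.card * (1 - 2 * b / n) :=
      mul_le_mul_of_nonneg_right hJ hq
    rw [pow_succ, ← mul_assoc]
    nlinarith

/-- combinatorial core of the lower bound -/
theorem cube_exists (e n s : ℕ) (A : (Fin (e + 1 + 1) → Fin n) → Bool) (hA : IsPerm A)
    (hn : 0 < n) (h1 : 2 * s ^ e ≤ n) (h2 : 2 * s ≤ n)
    (h3 : (s : ℝ) ≤ (n : ℝ) * (1 - 2 * (s ^ e : ℕ) / n) ^ s) :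
    ∃ T : Fin (e + 1 + 1) → Finset (Fin n), (∀ i, (T i).card = s) ∧ IsEmptyBox A T := by
  obtain ⟨S, -, hS⟩ := exists_subset_card_eq (s := (univ : Finset (Fin n))) (n := s)
    (by simp; omega)
  choose g hg using fun α => (hA 0 α).exists
  have hgu : ∀ α x, A (Function.update α 0 x) = true → x = g α := fun α x hx =>
    (hA 0 α).unique hx (hg α)
  let Bad : Fin n → Finset (Fin n) := fun j =>
    (Fintype.piFinset fun _ : Fin e => S).image fun β => g (Fin.cons j (Fin.cons j β))
  have hb : ∀ j, (Bad j).card ≤ s ^ e := by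
    intro j
    refine le_trans card_image_le ?_
    rw [Fintype.card_piFinset]; simp [hS]
  obtain ⟨X, hX, hJ⟩ := greedy (s ^ e) Bad hb hn h1 s h2
  obtain ⟨Y, hY, hYc⟩ := exists_subset_card_eq
    (s := univ.filter fun j => Disjoint X (Bad j)) (n := s) (by exact_mod_cast le_trans h3 hJ)
  refine ⟨Fin.cons X (Fin.cons Y fun _ => S), ?_, ?_⟩
  · intro i
    refine Fin.cases ?_ (fun i => ?_) i
    · simpa using hX
    · refine Fin.cases ?_ (fun i => ?_) i
      · simpa using hYc
      · simpa using hS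
  · intro α hα
    by_contra hc
    have hc' : A α = true := by simpa using hc
    have h0 : α 0 ∈ X := by simpa using hα 0
    have h1' : α (Fin.succ 0) ∈ Y := by
      have := hα (Fin.succ 0)
      simpa only [Fin.cons_succ, Fin.cons_zero] using this
    have h2' : ∀ i : Fin e, α i.succ.succ ∈ S := by
      intro i
      have := hα i.succ.succ
      simpa only [Fin.cons_succ] using this
    set j := α (Fin.succ 0) with hj
    have e1 : Function.update (Fin.cons j (Fin.cons j fun i : Fin e => α i.succ.succ) :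
        Fin (e + 1 + 1) → Fin n) 0 (α 0) = α := by
      rw [Fin.update_cons_zero]
      funext i
      refine Fin.cases ?_ (fun i => ?_) i
      · simp
      · refine Fin.cases ?_ (fun i => ?_) i
        · simp only [Fin.cons_succ, Fin.cons_zero]; rfl
        · simp only [Fin.cons_succ]
    have h4 : α 0 ∈ Bad j := by
      refine mem_image.2 ⟨fun i => α i.succ.succ, Fintype.mem_piFinset.2 h2', ?_⟩
      exact (hgu _ _ (by rw [e1]; exact hc')).symm
    exact disjoint_left.1 (mem_filter.1 (hY h1')).2 h0 h4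

theorem exp_neg_two_mul_le {x : ℝ} (h0 : 0 ≤ x) (h1 : x ≤ 1 / 2) :
    Real.exp (-(2 * x)) ≤ 1 - x := by
  have h2 : 2 * x + 1 ≤ Real.exp (2 * x) := Real.add_one_le_exp _
  rw [Real.exp_neg, inv_le_comm₀ (Real.exp_pos _) (by linarith)]
  refine le_trans ?_ h2
  rw [inv_le_iff_one_le_mul₀ (by linarith)]
  nlinarith

theorem cube_lower (d : ℕ) (hd : 2 ≤ d) : ∃ N : ℕ, ∀ n : ℕ, N ≤ n →
    ∀ A : (Fin (d + 1) → Fin n) → Bool, IsPerm A →
    ∃ (s : ℕ) (T : Fin (d + 1) → Finset (Fin n)), (∀ i, (T i).card = s) ∧ IsEmptyBox A T ∧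
      (n : ℝ) * Real.log n ≤ (16 * 2 ^ d) * (s : ℝ) ^ d := by
  obtain ⟨e, rfl⟩ : ∃ e, d = e + 1 := ⟨d - 1, by omega⟩
  have he : 1 ≤ e := by omega
  have hev : ∀ᶠ n : ℕ in Filter.atTop,
      2 ≤ Real.log n ∧ Real.log n ^ (e + 1) ≤ (1 / 16) * n := by
    have a1 : ∀ᶠ x : ℝ in Filter.atTop, 2 ≤ Real.log x :=
      Real.tendsto_log_atTop.eventually_ge_atTop 2
    have a2 := (Real.isLittleO_pow_log_id_atTop (n := e + 1)).def (c := 1 / 16) (by norm_num)
    have a3 : ∀ᶠ x : ℝ in Filter.atTop, 2 ≤ Real.log x ∧ Real.log x ^ (e + 1) ≤ (1 / 16) * x := by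
      filter_upwards [a1, a2, Filter.eventually_ge_atTop (0 : ℝ)] with x h1 h2 h3
      refine ⟨h1, ?_⟩
      simp only [id, Real.norm_eq_abs] at h2
      rw [abs_of_nonneg h3] at h2
      exact le_trans (le_abs_self _) h2
    exact tendsto_natCast_atTop_atTop.eventually a3
  obtain ⟨N, hN⟩ := Filter.eventually_atTop.1 hev
  refine ⟨N, fun n hn A hA => ?_⟩
  obtain ⟨hL2, hLn⟩ := hN n hn
  set L := Real.log n with hL
  have hn0 : 0 < n := by
    rcases Nat.eq_zero_or_pos n with h | h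
    · rw [hL, h] at hL2; simp at hL2; linarith
    · exact h
  have hn' : (0 : ℝ) < n := by exact_mod_cast hn0
  have hexpL : Real.exp L = n := Real.exp_log hn'
  set M : ℝ := n * L / 16 with hM
  have hM0 : 0 ≤ M := by positivity
  have hex : ∃ s : ℕ, M < ((s + 1 : ℕ) : ℝ) ^ (e + 1) := by
    obtain ⟨s, hs⟩ := exists_nat_gt M
    refine ⟨s, lt_of_lt_of_le hs (le_trans ?_ (le_self_pow₀ ?_ (by omega)))⟩
    · push_cast; linarith
    · push_cast; have : (0 : ℝ) ≤ s := by positivity
      linarith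
  classical
  set s := Nat.find hex with hs
  have hsM : M < ((s + 1 : ℕ) : ℝ) ^ (e + 1) := Nat.find_spec hex
  have hsL : L < s + 1 := by
    have h1 : L ^ (e + 1) < ((s + 1 : ℕ) : ℝ) ^ (e + 1) := by
      refine lt_of_le_of_lt (le_trans hLn ?_) hsM
      rw [hM]; nlinarith
    have := lt_of_pow_lt_pow_left₀ _ (by positivity) h1
    exact_mod_cast this
  have hs1 : (1 : ℝ) < s := by linarith
  have hs1' : 1 < s := by exact_mod_cast hs1
  have hsM' : (s : ℝ) ^ (e + 1) ≤ M := by
    have := Nat.find_min hex (m := s - 1) (by omega)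
    push Not at this
    rwa [Nat.sub_add_cancel (by omega)] at this
  have hb : (s : ℝ) ^ e ≤ n / 8 := by
    rw [pow_succ, hM] at hsM'
    have h1 : L ≤ 2 * s := by linarith
    have h2 : (s : ℝ) ^ e * s ≤ n / 8 * s := by nlinarith
    exact le_of_mul_le_mul_right h2 (by linarith)
  have hsb : (s : ℝ) ≤ (s : ℝ) ^ e := le_self_pow₀ hs1.le (by omega)
  have hb0 : (0 : ℝ) ≤ (s : ℝ) ^ e := by positivity
  obtain ⟨T, hT, hE⟩ := cube_exists e n s A hA hn0
    (by have : (2 : ℝ) * s ^ e ≤ n := by linarith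
        exact_mod_cast this)
    (by have : (2 : ℝ) * s ≤ n := by linarith
        exact_mod_cast this)
    (by
      push_cast
      have hx0 : (0 : ℝ) ≤ 2 * (s : ℝ) ^ e / n := by positivity
      have hx1 : 2 * (s : ℝ) ^ e / n ≤ 1 / 2 := by
        rw [div_le_iff₀ hn']; linarith
      have h1 := exp_neg_two_mul_le hx0 hx1
      have h2 : Real.exp (-(2 * (2 * (s : ℝ) ^ e / n))) ^ s ≤ (1 - 2 * (s : ℝ) ^ e / n) ^ s :=
        pow_le_pow_left₀ (Real.exp_pos _).le h1 s
      rw [← Real.exp_nat_mul] at h2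
      have h3 : Real.exp (-(L / 4)) ≤ Real.exp (s * -(2 * (2 * (s : ℝ) ^ e / n))) := by
        apply Real.exp_le_exp.2
        have h4 : (s : ℝ) * -(2 * (2 * (s : ℝ) ^ e / n)) = -(4 * (s : ℝ) ^ (e + 1) / n) := by
          rw [pow_succ]; ring
        rw [h4, neg_le_neg_iff, div_le_iff₀ hn']
        rw [hM] at hsM'
        linarith
      have h5 : (s : ℝ) ≤ n * Real.exp (-(L / 4)) := by
        have h6 : (s : ℝ) ^ 2 ≤ (s : ℝ) ^ (e + 1) := pow_le_pow_right₀ hs1.le (by omega)
        have h7 : ((n : ℝ) * Real.exp (-(L / 4))) ^ 2 = n * Real.exp (L / 2) := by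
          have h8 : Real.exp (L / 2) = Real.exp L * Real.exp (-(L / 4)) ^ 2 := by
            rw [← Real.exp_nat_mul, ← Real.exp_add]; congr 1; push_cast; ring
          rw [h8, hexpL]; ring
        have h9 : L / 2 + 1 ≤ Real.exp (L / 2) := Real.add_one_le_exp _
        have h10 : (s : ℝ) ^ 2 ≤ ((n : ℝ) * Real.exp (-(L / 4))) ^ 2 := by
          rw [h7]
          refine le_trans h6 (le_trans hsM' ?_)
          rw [hM]
          nlinarith
        exact le_of_sq_le_sq h10 (by positivity)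
      exact le_trans h5 (mul_le_mul_of_nonneg_left (le_trans h3 h2) hn'.le))
  refine ⟨s, T, hT, hE, ?_⟩
  have h1 : ((s + 1 : ℕ) : ℝ) ^ (e + 1) ≤ (2 * (s : ℝ)) ^ (e + 1) :=
    pow_le_pow_left₀ (by positivity) (by push_cast; linarith) _
  rw [mul_pow] at h1
  rw [hM] at hsM
  nlinarith

end Pool.Agent.H235Z
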