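import Mathlib
import Pool.Agent.H235Z.PermDefs
import Pool.Agent.H235Z.Boxes
import Pool.Agent.H235Z.CubeLow

namespace Pool.Agent.H235Z

theorem le_rpow_of_pow_le {s K x : ℝ} {d : ℕ} (hd : 1 ≤ d) (hs : 0 ≤ s) (hK : 0 ≤ K) (hx : 0 ≤ x)
    (h : s ^ d ≤ K * x) : s ≤ K ^ (1 / (d : ℝ)) * x ^ (1 / (d : ℝ)) := by
  rw [← Real.mul_rpow hK hx, one_div]
  calc s = (s ^ d) ^ ((d : ℝ)⁻¹) := (Real.pow_rpow_inv_natCast hs (by omega)).symm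
    _ ≤ _ := Real.rpow_le_rpow (by positivity) h (by positivity)

theorem rpow_le_of_le_pow {s K x : ℝ} {d : ℕ} (hd : 1 ≤ d) (hs : 0 ≤ s) (hK : 0 < K) (hx : 0 ≤ x)
    (h : x ≤ K * s ^ d) : (K ^ (1 / (d : ℝ)))⁻¹ * x ^ (1 / (d : ℝ)) ≤ s := by
  rw [inv_mul_le_iff₀ (Real.rpow_pos_of_pos hK _)]
  calc x ^ (1 / (d : ℝ)) ≤ (K * s ^ d) ^ (1 / (d : ℝ)) :=
        Real.rpow_le_rpow hx h (by positivity)
    _ = K ^ (1 / (d : ℝ)) * s := by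
        rw [Real.mul_rpow hK.le (by positivity), one_div, Real.pow_rpow_inv_natCast hs (by omega)]

theorem cube_upper_final (d : ℕ) (hd : 1 ≤ d) : ∃ C : ℝ, 0 < C ∧ ∀ n : ℕ, (∃ k, 1 ≤ k ∧ n = 2 ^ k) →
    ∃ A : (Fin (d + 1) → Fin n) → Bool, IsPerm A ∧
      ∀ (s : ℕ) (T : Fin (d + 1) → Finset (Fin n)), (∀ i, (T i).card = s) → IsEmptyBox A T →
        (s : ℝ) ≤ C * ((n : ℝ) * Real.log n) ^ (1 / (d : ℝ)) := by
  refine ⟨(16 * (d + 1) * 4 ^ (d + 1) : ℝ) ^ (1 / (d : ℝ)), by positivity, ?_⟩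
  rintro n ⟨k, hk, rfl⟩
  obtain ⟨A, hA, h⟩ := cube_bound d k hd hk
  refine ⟨A, hA, fun s T h1 h2 => ?_⟩
  exact le_rpow_of_pow_le hd (by positivity) (by positivity)
    (mul_nonneg (by positivity) (Real.log_natCast_nonneg _)) (h s T h1 h2)

theorem cube_lower_final (d : ℕ) (hd : 2 ≤ d) : ∃ c : ℝ, 0 < c ∧ ∃ N : ℕ, ∀ n : ℕ, N ≤ n →
    ∀ A : (Fin (d + 1) → Fin n) → Bool, IsPerm A →
      ∃ (s : ℕ) (T : Fin (d + 1) → Finset (Fin n)), (∀ i, (T i).card = s) ∧ IsEmptyBox A T ∧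
        c * ((n : ℝ) * Real.log n) ^ (1 / (d : ℝ)) ≤ s := by
  obtain ⟨N, hN⟩ := cube_lower d hd
  refine ⟨((16 * 2 ^ d : ℝ) ^ (1 / (d : ℝ)))⁻¹, by positivity, N, fun n hn A hA => ?_⟩
  obtain ⟨s, T, h1, h2, h3⟩ := hN n hn A hA
  exact ⟨s, T, h1, h2, rpow_le_of_le_pow (by omega) (by positivity) (by positivity)
    (mul_nonneg (by positivity) (Real.log_natCast_nonneg _)) h3⟩

end Pool.Agent.H235Z
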